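import Pool.Agent.Q190.FX.BakerB
import Pool.Agent.TH450.FG.G
import Pool.Agent.Q256.FX.Stm

/-!
# Baker's theorem on points of height zero over function fields (helper190, job BAKER)
-/

set_option autoImplicit false

namespace Pool.Agent.Q190.FX

open Pool.Agent.H951R3.PB Pool.Agent.TH450.PC Pool.Agent.TH450.FG Real Filter Topology

variable {k K : Type} [Field k] [Field K] [Algebra k K] {Q : PF.{0, 0, 0} k K}

/-- places of good reduction -/
def Good (Q : PF.{0, 0, 0} k K) (d : ℕ) (f : Fin 2 → MvPolynomial (Fin 2) K) (v : Q.Pl) : Prop :=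
  (∀ i m, Q.V v ((f i).coeff m) ≤ 1) ∧ Q.V v (rs f d) = 1

theorem good_fin {d : ℕ} {f : Fin 2 → MvPolynomial (Fin 2) K} (h0 : rs f d ≠ 0) :
    {v | ¬ Good Q d f v}.Finite := by
  classical
  have h1 : ∀ i : Fin 2, {v | ∃ m ∈ (f i).support, Q.V v ((f i).coeff m) ≠ 1}.Finite := by
    intro i
    have : {v | ∃ m ∈ (f i).support, Q.V v ((f i).coeff m) ≠ 1} =
        ⋃ m ∈ (f i).support, {v | Q.V v ((f i).coeff m) ≠ 1} := by
      ext v
      simp
    rw [this]
    exact Set.Finite.biUnion (f i).support.finite_toSet fun m hm =>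
      Q.fin _ (MvPolynomial.mem_support_iff.1 hm)
  refine (((h1 0).union (h1 1)).union (Q.fin _ h0)).subset fun v hv => ?_
  by_contra hcon
  rw [Set.mem_union, not_or, Set.mem_union, not_or] at hcon
  obtain ⟨⟨c0, c1⟩, c2⟩ := hcon
  apply hv
  have key : ∀ i : Fin 2, (v ∉ {v | ∃ m ∈ (f i).support, Q.V v ((f i).coeff m) ≠ 1}) →
      ∀ m, Q.V v ((f i).coeff m) ≤ 1 := by
    intro i hi m
    by_cases hm : (f i).coeff m = 0
    · rw [hm, map_zero]
      exact zero_le_one
    · by_contra hne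
      apply hi
      exact ⟨m, MvPolynomial.mem_support_iff.2 hm, fun h => hne h.le⟩
  refine ⟨fun i => ?_, ?_⟩
  · fin_cases i
    · exact key 0 c0
    · exact key 1 c1
  · by_contra hne
    exact c2 hne

section main

variable (w : Q.Pl → AbsoluteValue (AlgebraicClosure K) ℝ) (hw : ∀ v, Ext (Q.V v) (w v))
  {d : ℕ} (hd : 2 ≤ d) {f : Fin 2 → MvPolynomial (Fin 2) K}
  (hf : ∀ i, (f i).IsHomogeneous d) (h0 : rs f d ≠ 0)

/-- the local canonical height -/
noncomputable def gr (w : Q.Pl → AbsoluteValue (AlgebraicClosure K) ℝ) (d : ℕ)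
    (f : Fin 2 → MvPolynomial (Fin 2) K) (y : Fin 2 → K) (v : Q.Pl) : ℝ :=
  Gr (w v) (ev (fL K f)) d (vL K y)

include hw hd hf h0

theorem gr_of_good {v : Q.Pl} (hv : Good Q d f v) {y : Fin 2 → K} (hy : y ≠ 0) :
    gr w d f y v = log (nrm (Q.V v) y) := by
  have h1 : ∀ i m, w v ((fL K f i).coeff m) ≤ 1 := by
    intro i m
    simp only [fL, MvPolynomial.coeff_map]
    rw [hw v]
    exact hv.1 i m
  have h2 : log (w v (rs (fL K f) d)) = 0 := by
    rw [F4_rs, hw v, hv.2, log_one]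
  unfold gr
  rw [gr_good (w v) (ext_na (Q.na v) (hw v)) hd h1 (F4_fib (by omega) hf h0 (w v)) h2
    (F4_vL_ne hy), F4_ext_nrm (hw v)]

theorem gr_fs {y : Fin 2 → K} (hy : y ≠ 0) : Fs Q (gr w d f y) := by
  refine Fs.subset ((good_fin (Q := Q) h0).union (Fs_nrm (Q := Q) hy)) fun v hv => ?_
  rw [Set.mem_union, not_or] at hv
  have h1 : Good Q d f v := by
    by_contra h
    exact hv.1 h
  have h2 : log (nrm (Q.V v) y) = 0 := by
    by_contra h
    exact hv.2 h
  rw [gr_of_good w hw hd hf h0 h1 hy, h2]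

/-- the local defect -/
theorem gr_le' : ∃ C : Q.Pl → ℝ, Fs Q C ∧ ∀ y : Fin 2 → K, y ≠ 0 → ∀ v,
    gr w d f y v ≤ log (nrm (Q.V v) y) + C v := by
  classical
  refine ⟨fun v => if Good Q d f v then 0 else max (Ssup (w v) (ev (fL K f))) 0, ?_, ?_⟩
  · refine Fs.subset (good_fin (Q := Q) h0) fun v hv => ?_
    have h1 : Good Q d f v := by
      by_contra h
      exact hv h
    rw [if_pos h1]
  · intro y hy v
    by_cases hv : Good Q d f v
    · simp only [if_pos hv, add_zero]
      exact (gr_of_good w hw hd hf h0 hv hy).le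
    · simp only [if_neg hv]
      have h1 := gr_le hd (F4_fib (by omega) hf h0 (w v)) (F4_vL_ne hy)
      rw [F4_ext_nrm (hw v)] at h1
      exact h1

/-- the functional equation -/
theorem gr_ev {y z : Fin 2 → K} (hy : y ≠ 0) (hz : z ≠ 0) {c : K} (hc : c ≠ 0)
    (h : ev f y = c • z) (v : Q.Pl) :
    d * gr w d f y v = log (Q.V v c) + gr w d f z v := by
  have hFib := F4_fib (by omega : 1 ≤ d) hf h0 (w v)
  unfold gr
  rw [← gr_map hd hFib (F4_vL_ne hy), F4_ev, h]
  have h1 : vL K (c • z) = algebraMap K (AlgebraicClosure K) c • vL K z := by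
    funext i
    simp [vL]
  rw [h1, gr_smul hd hFib (F4_vL_ne hz) (by simpa using hc), hw v]

theorem D_ev {y z : Fin 2 → K} (hy : y ≠ 0) (hz : z ≠ 0) {c : K} (hc : c ≠ 0)
    (h : ev f y = c • z) : d * D Q (gr w d f y) = D Q (gr w d f z) := by
  have h1 := gr_fs w hw hd hf h0 hy
  have h2 := gr_fs w hw hd hf h0 hz
  rw [← D_cmul h1]
  have h3 : (fun v => (d : ℝ) * gr w d f y v) = fun v => log (Q.V v c) + gr w d f z v := by
    funext v
    exact gr_ev w hw hd hf h0 hy hz hc h v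
  rw [h3, D_add (D_log hc).1 h2, (D_log hc).2, zero_add]

/-- the pairing -/
theorem G_eq {x y : Fin 2 → K} (v : Q.Pl) :
    G d f (w v) x y = (-1) * log (Q.V v (wd x y)) + (gr w d f x v + gr w d f y v) +
      (-1 / (d * (d - 1))) * log (Q.V v (rs f d)) := by
  unfold G gg gr
  rw [F4_wd, hw v, F4_rs, hw v]
  simp only [ta]
  ring

theorem G_fs {x y : Fin 2 → K} (hxy : wd x y ≠ 0) :
    Fs Q (fun v => G d f (w v) x y) ∧
      D Q (fun v => G d f (w v) x y) = D Q (gr w d f x) + D Q (gr w d f y) := by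
  have hx := gr_fs w hw hd hf h0 (wd_ne_left hxy)
  have hy := gr_fs w hw hd hf h0 (wd_ne_right hxy)
  have h1 := (D_log (Q := Q) hxy)
  have h2 := (D_log (Q := Q) h0)
  have h3 : (fun v => G d f (w v) x y) = fun v => ((-1) * log (Q.V v (wd x y)) +
      (gr w d f x v + gr w d f y v)) + (-1 / (d * (d - 1))) * log (Q.V v (rs f d)) := by
    funext v
    exact G_eq w hw hd hf h0 v
  rw [h3]
  refine ⟨((h1.1.cmul _).add (hx.add hy)).add (h2.1.cmul _), ?_⟩
  rw [D_add ((h1.1.cmul _).add (hx.add hy)) (h2.1.cmul _), D_add (h1.1.cmul _) (hx.add hy),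
    D_add hx hy, D_cmul h1.1, D_cmul h2.1, h1.2, h2.2]
  ring

/-- the pairing is nonnegative at the places of good reduction -/
theorem G_good {v : Q.Pl} (hv : Good Q d f v) {x y : Fin 2 → K} (hxy : wd x y ≠ 0) :
    0 ≤ G d f (w v) x y := by
  rw [G_eq w hw hd hf h0, gr_of_good w hw hd hf h0 hv (wd_ne_left hxy),
    gr_of_good w hw hd hf h0 hv (wd_ne_right hxy), hv.2, log_one]
  have h1 := A2_wd_le_na (Q.V v) (Q.na v) x y
  have h2 := log_le_log ((Q.V v).pos hxy) h1
  rw [log_mul (B1_nrm_pos _ (wd_ne_left hxy)).ne' (B1_nrm_pos _ (wd_ne_right hxy)).ne'] at h2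
  linarith

/-- an infinite orbit of bounded height has height zero (upper bound) -/
theorem D_nonpos (P : ℕ → Fin 2 → K) (hP : ∀ j, ∃ c : K, c ≠ 0 ∧ ev f (P j) = c • P (j + 1))
    (hne : ∀ j, P j ≠ 0) {B : ℝ} (hB : ∀ j, D Q (fun v => log (nrm (Q.V v) (P j))) ≤ B) (j : ℕ) :
    D Q (gr w d f (P j)) ≤ 0 := by
  obtain ⟨C, hC, hle⟩ := gr_le' w hw hd hf h0
  have h1 : ∀ i, D Q (gr w d f (P i)) ≤ B + D Q C := by
    intro i
    have h2 := D_mono (gr_fs w hw hd hf h0 (hne i)) ((Fs_nrm (hne i)).add hC) (hle _ (hne i))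
    rw [D_add (Fs_nrm (hne i)) hC] at h2
    linarith [hB i]
  have h2 : ∀ n : ℕ, D Q (gr w d f (P (j + n))) = (d : ℝ) ^ n * D Q (gr w d f (P j)) := by
    intro n
    induction n with
    | zero => simp
    | succ n ih =>
      obtain ⟨c, hc, hcP⟩ := hP (j + n)
      have h3 := D_ev w hw hd hf h0 (hne _) (hne _) hc hcP
      rw [← add_assoc, ← h3, ih, pow_succ]
      ring
  by_contra hcon
  push Not at hcon
  have hd1 : (1 : ℝ) < d := by exact_mod_cast (by omega : 1 < d)
  obtain ⟨n, hn⟩ := pow_unbounded_of_one_lt ((B + D Q C) / D Q (gr w d f (P j))) hd1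
  rw [div_lt_iff₀ hcon] at hn
  have h4 := h1 (j + n)
  rw [h2] at h4
  linarith

end main

theorem sum_le_D {g : Q.Pl → ℝ} (hg : Fs Q g) (T : Finset Q.Pl) (h : ∀ v, v ∉ T → 0 ≤ g v) :
    ∑ v ∈ T, Q.wt v * g v ≤ D Q g := by
  classical
  obtain ⟨S, hS⟩ := hg.exists
  rw [D_eq (T ∪ S) fun v hv => hS v fun h' => hv (Finset.mem_union_right _ h')]
  refine Finset.sum_le_sum_of_subset_of_nonneg Finset.subset_union_left fun v _ hv => ?_
  exact mul_nonneg (Q.wt_pos v).le (h v hv)

theorem zero_of_D {g : Q.Pl → ℝ} (hg : Fs Q g) (h : ∀ v, 0 ≤ g v) (hD : D Q g ≤ 0) (v : Q.Pl) :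
    g v = 0 := by
  have h1 := sum_le_D hg {v} fun v' _ => h v'
  rw [Finset.sum_singleton] at h1
  have h2 : Q.wt v * g v ≤ 0 := h1.trans hD
  have h3 := Q.wt_pos v
  have h4 := h v
  by_contra hne
  have h5 : 0 < g v := lt_of_le_of_ne h4 (Ne.symm hne)
  have := mul_pos h3 h5
  linarith

open Pool.Agent.Q256.FX (cross) in
/-- **Baker's theorem**, job BAKER. -/
theorem baker : Pool.Agent.Q256.FX.S_baker := by
  intro k K _ _ _ _ hFG x hx halg d hd f hf h0 P hP hPP m b θ hθ i₀ i₁ i₂ i₃ h01 h02 h03 h12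
    h13 h23
  classical
  obtain ⟨Q⟩ := exists_PF k K hFG ⟨x, hx, halg⟩
  choose w hw using fun v => exists_ext_gen (Q.V v) (Q.na v)
  have hna : ∀ v, IsNonarchimedean (w v) := fun v => ext_na (Q.na v) (hw v)
  have hne : ∀ j, P j ≠ 0 := fun j => wd_ne_left (hPP j (j + 1) (by omega))
  -- the heights are bounded
  obtain ⟨B, hB⟩ : ∃ B : ℝ, ∀ j, D Q (fun v => log (nrm (Q.V v) (P j))) ≤ B := by
    refine ⟨max (∑ l, (b * D Q (lp Q x) + D Q (lp Q (θ l)))) 0, fun j => ?_⟩
    by_cases h1 : P j 1 = 0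
    · have h2 : P j 0 ≠ 0 := by
        intro h2
        apply hne j
        funext i
        fin_cases i
        · exact h2
        · exact h1
      have h3 : (fun v => log (nrm (Q.V v) (P j))) = fun v => log (Q.V v (P j 0)) := by
        funext v
        rw [nrm, h1, map_zero, max_eq_left ((Q.V v).nonneg _)]
      rw [h3, (D_log h2).2]
      exact le_max_right _ _
    · obtain ⟨a, ha, hrel⟩ := hθ j h1
      have h3 : (fun v => log (nrm (Q.V v) (P j))) =
          fun v => log (Q.V v (P j 1)) + lp Q (P j 0 / P j 1) v := by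
        funext v
        have hp : 0 < Q.V v (P j 1) := (Q.V v).pos h1
        rw [lp, ← log_mul hp.ne' (by positivity), nrm, map_div₀, mul_max_of_nonneg _ _ hp.le,
          mul_one, mul_div_cancel₀ _ hp.ne']
      rw [h3, D_add (D_log h1).1 (lp_fs _), (D_log h1).2, zero_add]
      refine le_trans ?_ (le_max_left _ _)
      have h4 : D Q (lp Q (P j 0 / P j 1)) ≤ ∑ l, (D Q (lp Q (a l)) + D Q (lp Q (θ l))) := by
        have h5 := Fs.sum (Q := Q) Finset.univ (g := fun l v => lp Q (a l) v + lp Q (θ l) v)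
          (fun l _ => (lp_fs _).add (lp_fs _))
        have h6 := D_mono (lp_fs (Q := Q) (P j 0 / P j 1)) h5.1
          (fun v => by rw [ha]; exact lp_sum a θ v)
        rw [h5.2] at h6
        refine h6.trans (le_of_eq ?_)
        exact Finset.sum_congr rfl fun l _ => D_add (lp_fs _) (lp_fs _)
      refine h4.trans (Finset.sum_le_sum fun l _ => ?_)
      obtain ⟨G', hG', hdeg, hG0⟩ := hrel l
      obtain ⟨c, hc, hle⟩ := lp_alg (Q := Q) hx G' hG' hdeg hG0
      have h7 : Fs Q (fun v => b * lp Q x v + (-1) * log (Q.V v c)) :=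
        ((lp_fs x).cmul _).add ((D_log hc).1.cmul _)
      have h8 := D_mono (lp_fs (a l)) h7 (fun v => by linarith [hle v])
      rw [D_add ((lp_fs x).cmul _) ((D_log hc).1.cmul _), D_cmul (lp_fs x),
        D_cmul (D_log hc).1, (D_log hc).2] at h8
      linarith
  have hD : ∀ j, D Q (gr w d f (P j)) ≤ 0 := D_nonpos w hw hd hf h0 P hP hne hB
  have hglob : ∀ i j, i ≠ j → D Q (fun v => G d f (w v) (P i) (P j)) ≤ 0 := by
    intro i j hij
    rw [(G_fs w hw hd hf h0 (hPP i j hij)).2]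
    linarith [hD i, hD j]
  -- the bad places
  obtain ⟨M, c, hc, Hgain⟩ := gainNA.{0} d hd
  let Bad : Q.Pl → Prop := fun v => ¬ Good Q d f v ∧ 0 < msz d f (w v)
  have hpos : ∀ v, ¬ Bad v → ∀ x y : Fin 2 → K, wd x y ≠ 0 → 0 ≤ G d f (w v) x y := by
    intro v hv x y hxy
    by_cases hg : Good Q d f v
    · exact G_good w hw hd hf h0 hg hxy
    · have hm : msz d f (w v) ≤ 0 := by
        by_contra hm
        exact hv ⟨hg, not_le.1 hm⟩
      have hxy' : wd (vL K x) (vL K y) ≠ 0 := by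
        rw [F4_wd]
        simpa using hxy
      exact gg_nonneg d hd _ (w v) (hna v) _ _ (F4_fib (by omega : 1 ≤ d) hf h0 (w v)) hm hxy'
  have hnobad : ∀ v, ¬ Bad v := by
    intro v₀ hv₀
    set T : Finset Q.Pl := (good_fin (Q := Q) h0).toFinset.filter Bad with hT
    have hTbad : ∀ v ∈ T, Bad v := fun v hv => (Finset.mem_filter.1 hv).2
    have hTmem : ∀ v, Bad v → v ∈ T := by
      intro v hv
      rw [hT, Finset.mem_filter]
      exact ⟨(Set.Finite.mem_toFinset _).2 hv.1, hv⟩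
    haveI : Nonempty {v // v ∈ T} := ⟨⟨v₀, hTmem v₀ hv₀⟩⟩
    have hwt : ∀ v, (0 : ℝ) < Q.wt v := Q.wt_pos
    set C₀ : ℝ := M * d + 2 / c + 1 with hC₀
    have hC₀pos : 0 < C₀ := by positivity
    obtain ⟨C', hC', Hsolve⟩ := solve_bound hC₀pos 1 le_rfl
    have hbound : ∀ N : ℕ, (N : ℝ) ≤ C' * ((T.card : ℝ) + 1) * log (1 + ((T.card : ℝ) + 1)) := by
      intro N
      have hcount := count_zero (V := ℕ) hd (fun t : {v // v ∈ T} => Q.wt t * msz d f (w t))
        (fun t => mul_pos (hwt t) (hTbad _ t.2).2)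
        (fun t i j => Q.wt t * G d f (w t) (P i) (P j)) hc (Finset.range N)
        (by
          intro t n x hxinj _
          have h1 := lossNA d hd _ (w t) (hna _) (fL K f) (fun i => (hf i).map _)
            (F4_rs_ne h0) n (fun j => vL K (P (x j))) (fun j => F4_vL_ne (hne _)) (by
              intro i j hij
              rw [F4_wd]
              simpa using hPP _ _ (fun h => hij (hxinj h)))
          have h2 := mul_le_mul_of_nonneg_left h1 (hwt t).le
          rw [Finset.mul_sum] at h2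
          simp_rw [Finset.mul_sum] at h2
          refine le_trans (le_of_eq ?_) h2
          unfold msz
          ring)
        (M := M) (by
          intro t
          obtain ⟨cell, hcell⟩ := Hgain _ (w t) (hna _) _ _
            (F4_fib (by omega : 1 ≤ d) hf h0 (w t)) (hTbad _ t.2).2
          refine ⟨fun i => cell (vL K (P i)), ?_⟩
          intro i _ j _ hij hcij
          have h1 := hcell (vL K (P i)) (vL K (P j)) (by
            rw [F4_wd]
            simpa using hPP i j hij) hcij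
          have h2 := mul_le_mul_of_nonneg_left h1 (hwt t).le
          refine le_trans (le_of_eq ?_) h2
          unfold msz
          ring)
        (by
          intro i _ j _ hij
          have h1 := sum_le_D (G_fs w hw hd hf h0 (hPP i j hij)).1 T
            (fun v hv => hpos v (fun h => hv (hTmem v h)) _ _ (hPP i j hij))
          have h2 := h1.trans (hglob i j hij)
          rw [← Finset.sum_coe_sort T] at h2
          exact h2)
      rw [Finset.card_range] at hcount
      have hcard : (Fintype.card {t // t ∈ T} : ℝ) ≤ (T.card : ℝ) + 1 := by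
        rw [Fintype.card_coe]
        linarith
      have hT0 : (0 : ℝ) ≤ T.card := Nat.cast_nonneg _
      have h1 : (N : ℝ) ≤ C₀ * (1 + C₀ * ((T.card : ℝ) + 1) * Nat.log d N) := by
        refine hcount.trans ?_
        have e1 : (M * d : ℝ) ≤ C₀ := by
          rw [hC₀]
          have : 0 < 2 / c := by positivity
          linarith
        have e2 : 2 / c ≤ C₀ := by
          rw [hC₀]
          have : (0 : ℝ) ≤ M * d := by positivity
          linarith
        gcongr
      exact Hsolve d N ((T.card : ℝ) + 1) ((T.card : ℝ) + 1) hd (by linarith) (by linarith)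
        (by linarith) h1
    obtain ⟨N, hN⟩ := exists_nat_gt (C' * ((T.card : ℝ) + 1) * log (1 + ((T.card : ℝ) + 1)))
    exact absurd (hbound N) (not_le.2 hN)
  have hG : ∀ i j, i ≠ j → ∀ v, G d f (w v) (P i) (P j) = 0 := by
    intro i j hij v
    exact zero_of_D (G_fs w hw hd hf h0 (hPP i j hij)).1
      (fun v => hpos v (hnobad v) _ _ (hPP i j hij)) (hglob i j hij) v
  -- the cross ratio
  have n1 : wd (P i₃) (P i₁) ≠ 0 := hPP _ _ h13.symm
  have n2 : wd (P i₀) (P i₂) ≠ 0 := hPP _ _ h02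
  have n3 : wd (P i₀) (P i₃) ≠ 0 := hPP _ _ h03
  have n4 : wd (P i₂) (P i₁) ≠ 0 := hPP _ _ h12.symm
  have hcr : cross (P i₀) (P i₁) (P i₂) (P i₃) ≠ 0 := by
    unfold cross
    exact div_ne_zero (mul_ne_zero n1 n2) (mul_ne_zero n3 n4)
  refine Q.const _ hcr fun v => ?_
  have c1 := cross_log (d := d) (f := f) (hw v) (hG _ _ h13.symm v) (hG _ _ h02 v)
    (hG _ _ h03 v) (hG _ _ h12.symm v)
  have c2 : log (Q.V v (cross (P i₀) (P i₁) (P i₂) (P i₃))) = 0 := by
    have m1 : Q.V v (wd (P i₃) (P i₁)) ≠ 0 := (Q.V v).ne_zero n1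
    have m2 : Q.V v (wd (P i₀) (P i₂)) ≠ 0 := (Q.V v).ne_zero n2
    have m3 : Q.V v (wd (P i₀) (P i₃)) ≠ 0 := (Q.V v).ne_zero n3
    have m4 : Q.V v (wd (P i₂) (P i₁)) ≠ 0 := (Q.V v).ne_zero n4
    unfold cross
    rw [map_div₀, map_mul, map_mul, log_div (mul_ne_zero m1 m2) (mul_ne_zero m3 m4),
      log_mul m1 m2, log_mul m3 m4]
    linarith
  have c3 : 0 < Q.V v (cross (P i₀) (P i₁) (P i₂) (P i₃)) := (Q.V v).pos hcr
  have c4 := congrArg Real.exp c2
  rwa [Real.exp_log c3, Real.exp_zero] at c4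

end Pool.Agent.Q190.FX
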