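import Pool.Agent.TH450.FG.F

/-!
# Baker's theorem on points of height zero: local and global preliminaries (helper190, job BAKER)
-/

set_option autoImplicit false

namespace Pool.Agent.Q190.FX

open Pool.Agent.H951R3.PB Pool.Agent.TH450.PC Pool.Agent.TH450.FG Real Filter Topology

section loc

universe u

variable {L : Type u} [Field L]

theorem na_sum_le (w : AbsoluteValue L ℝ) (hw : IsNonarchimedean w) {ι : Type*} (s : Finset ι)
    (f : ι → L) {B : ℝ} (hB : 0 ≤ B) (h : ∀ i ∈ s, w (f i) ≤ B) : w (∑ i ∈ s, f i) ≤ B := by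
  classical
  induction s using Finset.induction_on with
  | empty => simpa using hB
  | insert i s hi ih =>
      rw [Finset.sum_insert hi]
      exact (hw _ _).trans (max_le (h i (Finset.mem_insert_self _ _))
        (ih fun j hj => h j (Finset.mem_insert_of_mem hj)))

/-- the Green function is at most the logarithm of the norm plus a constant -/
theorem gr_le [IsAlgClosed L] {w : AbsoluteValue L ℝ} {F : (Fin 2 → L) → Fin 2 → L} {d : ℕ}
    (hd : 2 ≤ d) {r : ℝ} (h : Fib w F d r) {x : Fin 2 → L} (hx : x ≠ 0) :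
    Gr w F d x ≤ log (nrm w x) + max (Ssup w F) 0 := by
  set M := max (Ssup w F) 0 with hM
  have hM0 : 0 ≤ M := le_max_right _ _
  have hd2 : (2 : ℝ) ≤ d := by exact_mod_cast hd
  have hstep : ∀ z : Fin 2 → L, z ≠ 0 → log (nrm w (F z)) ≤ d * log (nrm w z) + M := by
    intro z hz
    obtain ⟨k, u, hk, hu, rfl⟩ := D2.unit_of w hz
    rw [fib_homog h, B1_nrm_smul, B1_nrm_smul, hu, mul_one, map_pow,
      log_mul (pow_ne_zero _ ((w.ne_zero_iff).2 hk))
        (B1_nrm_pos w (fib_ne_zero h (B1_ne_zero hu))).ne', log_pow]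
    have h1 := B2_le h hu
    have h2 : Ssup w F ≤ M := le_max_left _ _
    linarith
  have hit : ∀ n : ℕ, F^[n] x ≠ 0 ∧
      log (nrm w (F^[n] x)) ≤ (d : ℝ) ^ n * log (nrm w x) + ((d : ℝ) ^ n - 1) * M := by
    intro n
    induction n with
    | zero => exact ⟨hx, by simp⟩
    | succ n ih =>
      rw [Function.iterate_succ_apply']
      refine ⟨fib_ne_zero h ih.1, (hstep _ ih.1).trans ?_⟩
      have h1 : (d : ℝ) * log (nrm w (F^[n] x)) ≤
          d * ((d : ℝ) ^ n * log (nrm w x) + ((d : ℝ) ^ n - 1) * M) :=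
        mul_le_mul_of_nonneg_left ih.2 (by linarith)
      have h2 : 0 ≤ ((d : ℝ) - 2) * M := mul_nonneg (by linarith) hM0
      rw [pow_succ]
      nlinarith
  have h1 := gr_tendsto hd h hx
  refine le_of_tendsto' h1 fun n => ?_
  have hp : (0 : ℝ) < (d : ℝ) ^ n := by positivity
  rw [div_le_iff₀ hp]
  have h2 := (hit n).2
  nlinarith

/-- at a place of good reduction the norm of unit vectors is preserved -/
theorem good_unit [IsAlgClosed L] (w : AbsoluteValue L ℝ) (hw : IsNonarchimedean w) {d : ℕ}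
    (hd : 2 ≤ d) {g : Fin 2 → MvPolynomial (Fin 2) L} (hg : ∀ i m, w ((g i).coeff m) ≤ 1)
    {r : ℝ} (h : Fib w (ev g) d r) (hr : r = 0) {x : Fin 2 → L} (hx : nrm w x = 1) :
    nrm w (ev g x) = 1 := by
  have hle : ∀ y : Fin 2 → L, nrm w y = 1 → nrm w (ev g y) ≤ 1 := by
    intro y hy
    have hy0 : ∀ i, w (y i) ≤ 1 := by
      intro i
      fin_cases i
      · exact (le_max_left _ _).trans_eq hy
      · exact (le_max_right _ _).trans_eq hy
    exact max_le (F2.eval_le w hw _ (hg 0) y hy0) (F2.eval_le w hw _ (hg 1) y hy0)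
  have hS : Ssup w (ev g) ≤ 0 := by
    have : Nonempty {v : Fin 2 → L // nrm w v = 1} := ⟨⟨![1, 0], by simp [nrm]⟩⟩
    refine ciSup_le fun v => ?_
    exact log_nonpos (nrm_nonneg w _) (hle v.1 v.2)
  have h2 := (fib_bounds_na w hw (by omega : 1 ≤ d) h).2 x hx
  have h3 : tt w (ev g) d r = 2 * d * Ssup w (ev g) := by
    unfold tt
    rw [hr]
    ring
  rw [h3] at h2
  have hd2 : (2 : ℝ) ≤ d := by exact_mod_cast hd
  have h4 : 0 ≤ log (nrm w (ev g x)) := by nlinarith
  have h5 : 0 < nrm w (ev g x) := B1_nrm_pos w (fib_ne_zero h (B1_ne_zero hx))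
  refine le_antisymm (hle x hx) ?_
  by_contra hcon
  push Not at hcon
  have := log_neg h5 hcon
  linarith

/-- at a place of good reduction the Green function is the logarithm of the norm -/
theorem gr_good [IsAlgClosed L] (w : AbsoluteValue L ℝ) (hw : IsNonarchimedean w) {d : ℕ}
    (hd : 2 ≤ d) {g : Fin 2 → MvPolynomial (Fin 2) L} (hg : ∀ i m, w ((g i).coeff m) ≤ 1)
    {r : ℝ} (h : Fib w (ev g) d r) (hr : r = 0) {x : Fin 2 → L} (hx : x ≠ 0) :
    Gr w (ev g) d x = log (nrm w x) := by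
  have hscale : ∀ v : Fin 2 → L, v ≠ 0 →
      log (nrm w (ev g v)) = d * log (nrm w v) := by
    intro v hv
    obtain ⟨k, u, hk, hu, rfl⟩ := D2.unit_of w hv
    rw [fib_homog h, B1_nrm_smul, B1_nrm_smul, good_unit w hw hd hg h hr hu, hu, mul_one,
      mul_one, map_pow, log_pow]
  have hit : ∀ (n : ℕ) (v : Fin 2 → L), v ≠ 0 →
      log (nrm w ((ev g)^[n] v)) = (d : ℝ) ^ n * log (nrm w v) := by
    intro n v hv
    induction n with
    | zero => simp
    | succ n ih =>
      rw [Function.iterate_succ_apply', hscale _ (fib_ne_zero (fib_iter h n) hv), ih]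
      ring
  have hd2 : (2 : ℝ) ≤ d := by exact_mod_cast hd
  have h3 := gr_tendsto hd h hx
  have h4 : (fun n : ℕ => log (nrm w ((ev g)^[n] x)) / (d : ℝ) ^ n) =
      fun _ => log (nrm w x) := by
    funext n
    rw [hit n x hx]
    have : (d : ℝ) ^ n ≠ 0 := pow_ne_zero _ (by linarith)
    field_simp
  rw [h4] at h3
  exact tendsto_nhds_unique h3 tendsto_const_nhds

end loc

section func

variable {k K : Type} [Field k] [Field K] [Algebra k K] (Q : PF.{0, 0, 0} k K)

/-- finite support -/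
def Fs (g : Q.Pl → ℝ) : Prop := {v | g v ≠ 0}.Finite

/-- the degree of a function of finite support on the places -/
noncomputable def D (g : Q.Pl → ℝ) : ℝ := ∑ᶠ v, Q.wt v * g v

variable {Q}

theorem D_eq {g : Q.Pl → ℝ} (S : Finset Q.Pl) (h : ∀ v, v ∉ S → g v = 0) :
    D Q g = ∑ v ∈ S, Q.wt v * g v := by
  unfold D
  refine finsum_eq_sum_of_support_subset _ ?_
  intro v hv
  by_contra hvS
  apply hv
  show Q.wt v * g v = 0
  rw [h v (fun h' => hvS (Finset.mem_coe.2 h')), mul_zero]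

theorem Fs.subset {g : Q.Pl → ℝ} {S : Set Q.Pl} (hS : S.Finite) (h : ∀ v, v ∉ S → g v = 0) :
    Fs Q g := by
  refine hS.subset fun v hv => ?_
  by_contra h'
  exact hv (h v h')

theorem Fs.exists {g : Q.Pl → ℝ} (h : Fs Q g) : ∃ S : Finset Q.Pl, ∀ v, v ∉ S → g v = 0 := by
  refine ⟨h.toFinset, fun v hv => ?_⟩
  by_contra h'
  exact hv ((Set.Finite.mem_toFinset h).2 h')

theorem Fs.add {g g' : Q.Pl → ℝ} (h : Fs Q g) (h' : Fs Q g') : Fs Q (fun v => g v + g' v) := by
  refine Fs.subset (h.union h') fun v hv => ?_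
  rw [Set.mem_union, not_or] at hv
  have h1 : g v = 0 := by simpa using hv.1
  have h2 : g' v = 0 := by simpa using hv.2
  rw [h1, h2, add_zero]

theorem Fs.cmul {g : Q.Pl → ℝ} (h : Fs Q g) (a : ℝ) : Fs Q (fun v => a * g v) := by
  refine Fs.subset h fun v hv => ?_
  have h1 : g v = 0 := by simpa using hv
  rw [h1, mul_zero]

theorem D_add {g g' : Q.Pl → ℝ} (h : Fs Q g) (h' : Fs Q g') :
    D Q (fun v => g v + g' v) = D Q g + D Q g' := by
  classical
  obtain ⟨S, hS⟩ := h.exists
  obtain ⟨S', hS'⟩ := h'.exists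
  rw [D_eq (S ∪ S') (g := g) fun v hv => hS v fun h => hv (Finset.mem_union_left _ h),
    D_eq (S ∪ S') (g := g') fun v hv => hS' v fun h => hv (Finset.mem_union_right _ h),
    D_eq (S ∪ S') fun v hv => by
      rw [hS v fun h => hv (Finset.mem_union_left _ h),
        hS' v fun h => hv (Finset.mem_union_right _ h), add_zero], ← Finset.sum_add_distrib]
  exact Finset.sum_congr rfl fun v _ => mul_add _ _ _

theorem D_cmul {g : Q.Pl → ℝ} (h : Fs Q g) (a : ℝ) : D Q (fun v => a * g v) = a * D Q g := by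
  obtain ⟨S, hS⟩ := h.exists
  rw [D_eq S hS, D_eq S fun v hv => by rw [hS v hv, mul_zero], Finset.mul_sum]
  refine Finset.sum_congr rfl fun v _ => ?_
  ring

theorem D_mono {g g' : Q.Pl → ℝ} (h : Fs Q g) (h' : Fs Q g') (hle : ∀ v, g v ≤ g' v) :
    D Q g ≤ D Q g' := by
  classical
  obtain ⟨S, hS⟩ := h.exists
  obtain ⟨S', hS'⟩ := h'.exists
  rw [D_eq (S ∪ S') (g := g) fun v hv => hS v fun h => hv (Finset.mem_union_left _ h),
    D_eq (S ∪ S') (g := g') fun v hv => hS' v fun h => hv (Finset.mem_union_right _ h)]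
  exact Finset.sum_le_sum fun v _ => mul_le_mul_of_nonneg_left (hle v) (Q.wt_pos v).le

theorem Fs.sum {ι : Type*} (s : Finset ι) {g : ι → Q.Pl → ℝ} (h : ∀ i ∈ s, Fs Q (g i)) :
    Fs Q (fun v => ∑ i ∈ s, g i v) ∧ D Q (fun v => ∑ i ∈ s, g i v) = ∑ i ∈ s, D Q (g i) := by
  classical
  induction s using Finset.induction_on with
  | empty =>
    refine ⟨Fs.subset Set.finite_empty fun v _ => by simp, ?_⟩
    rw [D_eq ∅ (by simp)]
    simp
  | insert i s hi ih =>
    obtain ⟨h1, h2⟩ := ih fun j hj => h j (Finset.mem_insert_of_mem hj)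
    have h3 := h i (Finset.mem_insert_self _ _)
    simp only [Finset.sum_insert hi]
    exact ⟨h3.add h1, by rw [D_add h3 h1, h2]⟩

/-- product formula -/
theorem D_log {x : K} (hx : x ≠ 0) :
    Fs Q (fun v => log (Q.V v x)) ∧ D Q (fun v => log (Q.V v x)) = 0 := by
  have h1 : ∀ v, v ∉ (Q.fin x hx).toFinset → Q.V v x = 1 := by
    intro v hv
    by_contra h
    exact hv (by simpa using h)
  refine ⟨Fs.subset (Q.fin x hx) fun v hv => ?_, ?_⟩
  · have : Q.V v x = 1 := by simpa using hv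
    rw [this, log_one]
  · rw [D_eq (Q.fin x hx).toFinset fun v hv => by rw [h1 v hv, log_one]]
    exact Q.prod x hx _ h1

theorem Fs_nrm {y : Fin 2 → K} (hy : y ≠ 0) : Fs Q (fun v => log (nrm (Q.V v) y)) := by
  have hfin : ∀ i : Fin 2, {v | y i ≠ 0 ∧ Q.V v (y i) ≠ 1}.Finite := by
    intro i
    by_cases h : y i = 0
    · refine Set.finite_empty.subset fun v hv => ?_
      exact absurd h hv.1
    · exact (Q.fin _ h).subset fun v hv => hv.2
  refine Fs.subset ((hfin 0).union (hfin 1)) fun v hv => ?_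
  rw [Set.mem_union, not_or] at hv
  have key : ∀ i : Fin 2, v ∉ {v | y i ≠ 0 ∧ Q.V v (y i) ≠ 1} → y i = 0 ∨ Q.V v (y i) = 1 := by
    intro i hi
    by_contra hcon
    push Not at hcon
    exact hi hcon
  have h0 := key 0 hv.1
  have h1 := key 1 hv.2
  have : nrm (Q.V v) y = 1 := by
    unfold nrm
    rcases h0 with h0 | h0 <;> rcases h1 with h1 | h1
    · exfalso
      apply hy
      funext i
      fin_cases i
      · exact h0
      · exact h1
    · rw [h0, h1, map_zero]
      exact max_eq_right zero_le_one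
    · rw [h0, h1, map_zero]
      exact max_eq_left zero_le_one
    · rw [h0, h1]
      exact max_self _
  rw [this, log_one]

end func

end Pool.Agent.Q190.FX
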