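import Pool.Agent.Q190.FX.BakerA

/-!
# Heights of algebraic functions of bounded degree (helper190, job BAKER)
-/

set_option autoImplicit false

namespace Pool.Agent.Q190.FX

open Pool.Agent.H951R3.PB Pool.Agent.TH450.PC Pool.Agent.TH450.FG Real Filter Topology

variable {k K : Type} [Field k] [Field K] [Algebra k K] {Q : PF.{0, 0, 0} k K}

/-- the local height of a scalar -/
noncomputable def lp (Q : PF.{0, 0, 0} k K) (t : K) (v : Q.Pl) : ℝ := log (max (Q.V v t) 1)

theorem lp_eq (t : K) : lp Q t = fun v => log (nrm (Q.V v) ![t, 1]) := by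
  funext v
  simp [lp, nrm]

theorem lp_fs (t : K) : Fs Q (lp Q t) := by
  rw [lp_eq]
  refine Fs_nrm fun h => ?_
  have := congrFun h 1
  simp at this

theorem lp_nonneg (t : K) (v : Q.Pl) : 0 ≤ lp Q t v := log_nonneg (le_max_right _ _)

/-- the local height of a sum of products -/
theorem lp_sum {m : ℕ} (a θ : Fin m → K) (v : Q.Pl) :
    lp Q (∑ l, a l * θ l) v ≤ ∑ l, (lp Q (a l) v + lp Q (θ l) v) := by
  classical
  set f : Fin m → ℝ := fun l => max (Q.V v (a l)) 1 * max (Q.V v (θ l)) 1 with hf
  have hf1 : ∀ l, 1 ≤ f l := fun l => one_le_mul_of_one_le_of_one_le (le_max_right _ _)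
    (le_max_right _ _)
  have h1 : ∀ s : Finset (Fin m), 1 ≤ ∏ l ∈ s, f l ∧
      Q.V v (∑ l ∈ s, a l * θ l) ≤ ∏ l ∈ s, f l := by
    intro s
    induction s using Finset.induction_on with
    | empty => simp
    | insert i s hi ih =>
      rw [Finset.sum_insert hi, Finset.prod_insert hi]
      refine ⟨one_le_mul_of_one_le_of_one_le (hf1 i) ih.1, ?_⟩
      refine (Q.na v _ _).trans (max_le ?_ ?_)
      · rw [map_mul]
        calc Q.V v (a i) * Q.V v (θ i) ≤ f i := by
              rw [hf]
              simp only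
              exact mul_le_mul (le_max_left _ _) (le_max_left _ _) ((Q.V v).nonneg _)
                (by positivity)
          _ = f i * 1 := by rw [mul_one]
          _ ≤ f i * ∏ l ∈ s, f l := mul_le_mul_of_nonneg_left ih.1 (by linarith [hf1 i])
      · calc Q.V v (∑ l ∈ s, a l * θ l) ≤ ∏ l ∈ s, f l := ih.2
          _ = 1 * ∏ l ∈ s, f l := by rw [one_mul]
          _ ≤ f i * ∏ l ∈ s, f l := mul_le_mul_of_nonneg_right (hf1 i) (by linarith [ih.1])
  have h2 := h1 Finset.univ
  have h3 : max (Q.V v (∑ l, a l * θ l)) 1 ≤ ∏ l, f l := max_le h2.2 h2.1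
  have h4 := log_le_log (by positivity) h3
  refine h4.trans (le_of_eq ?_)
  rw [log_prod fun l _ => by linarith [hf1 l]]
  refine Finset.sum_congr rfl fun l _ => ?_
  rw [hf]
  simp only
  rw [log_mul (by positivity) (by positivity)]
  rfl

/-- a nonarchimedean bound for the roots of a polynomial -/
theorem root_bound (V : AbsoluteValue K ℝ) (hV : IsNonarchimedean V) (p : Polynomial K)
    (hp : p ≠ 0) {M : ℝ} (hM : ∀ i, V (p.coeff i) ≤ M) {t : K} (ht : p.eval t = 0) :
    V p.leadingCoeff * max (V t) 1 ≤ M := by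
  have hlc : p.leadingCoeff ≠ 0 := Polynomial.leadingCoeff_ne_zero.2 hp
  have ha : 0 < V p.leadingCoeff := V.pos hlc
  rcases le_or_gt (V t) 1 with h | h
  · rw [max_eq_right h, mul_one]
    exact hM _
  rw [max_eq_left h.le]
  have ht0 : 0 < V t := by linarith
  have hM0 : 0 ≤ M := (V.nonneg _).trans (hM 0)
  -- the degree is positive
  have hn : p.natDegree ≠ 0 := by
    intro h0
    rw [Polynomial.eq_C_of_natDegree_eq_zero h0, Polynomial.eval_C] at ht
    apply hp
    rw [Polynomial.eq_C_of_natDegree_eq_zero h0, ht, Polynomial.C_0]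
  obtain ⟨n, hn'⟩ := Nat.exists_eq_succ_of_ne_zero hn
  have h1 : p.leadingCoeff * t ^ (n + 1) = -∑ i ∈ Finset.range (n + 1), p.coeff i * t ^ i := by
    rw [Polynomial.eval_eq_sum_range, hn', Finset.sum_range_succ] at ht
    rw [Polynomial.leadingCoeff, hn']
    linear_combination ht
  have h2 : V (p.leadingCoeff * t ^ (n + 1)) ≤ M * V t ^ n := by
    rw [h1, V.map_neg]
    refine na_sum_le V hV _ _ (by positivity) fun i hi => ?_
    rw [map_mul, map_pow]
    refine mul_le_mul (hM i) (pow_le_pow_right₀ h.le ?_) (by positivity) hM0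
    have := Finset.mem_range.1 hi
    omega
  rw [map_mul, map_pow, pow_succ] at h2
  have h3 : 0 < V t ^ n := by positivity
  have h4 : V p.leadingCoeff * V t * V t ^ n ≤ M * V t ^ n := by
    calc V p.leadingCoeff * V t * V t ^ n = V p.leadingCoeff * (V t ^ n * V t) := by ring
      _ ≤ M * V t ^ n := h2
  exact le_of_mul_le_mul_right h4 h3

/-- **The local height of an element which satisfies a relation of bounded degree with `x`.** -/
theorem lp_alg {x : K} (hx : Transcendental k x) {b : ℕ} {t : K} (G : MvPolynomial (Fin 2) k)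
    (hG : G ≠ 0) (hdeg : G.totalDegree ≤ b) (h : MvPolynomial.aeval ![t, x] G = 0) :
    ∃ a : K, a ≠ 0 ∧ ∀ v : Q.Pl, lp Q t v ≤ b * lp Q x v - log (Q.V v a) := by
  classical
  set p : Polynomial K := MvPolynomial.aeval ![Polynomial.X, Polynomial.C x] G with hp
  have hpsum : p = ∑ μ ∈ G.support,
      Polynomial.monomial (μ 0) (algebraMap k K (G.coeff μ) * x ^ (μ 1)) := by
    rw [hp, MvPolynomial.aeval_def, MvPolynomial.eval₂_eq']
    refine Finset.sum_congr rfl fun μ _ => ?_
    rw [Fin.prod_univ_two]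
    simp only [Matrix.cons_val_zero, Matrix.cons_val_one]
    rw [← Polynomial.C_mul_X_pow_eq_monomial, Polynomial.C_mul, Polynomial.C_pow]
    have : algebraMap k (Polynomial K) (G.coeff μ) = Polynomial.C (algebraMap k K (G.coeff μ)) :=
      rfl
    rw [this]
    ring
  have hcoeff : ∀ i, p.coeff i =
      ∑ μ ∈ G.support.filter (fun μ => μ 0 = i), algebraMap k K (G.coeff μ) * x ^ (μ 1) := by
    intro i
    rw [hpsum, Polynomial.finsetSum_coeff, Finset.sum_filter]
    refine Finset.sum_congr rfl fun μ _ => ?_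
    rw [Polynomial.coeff_monomial]
  have hpe : p.eval t = 0 := by
    rw [← h, hp]
    have h1 : (Polynomial.aeval t : Polynomial K →ₐ[K] K).restrictScalars k
        (MvPolynomial.aeval ![Polynomial.X, Polynomial.C x] G) =
        MvPolynomial.aeval ![t, x] G := by
      rw [← AlgHom.comp_apply, MvPolynomial.comp_aeval]
      congr 2
      funext i
      fin_cases i <;> simp
    rw [← h1]
    simp [Polynomial.aeval_def]
  have hp0 : p ≠ 0 := by
    intro h0
    obtain ⟨μ₀, hμ₀⟩ := MvPolynomial.ne_zero_iff.1 hG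
    have h1 := hcoeff (μ₀ 0)
    rw [h0, Polynomial.coeff_zero] at h1
    -- the coefficient is a polynomial in `x`
    set q : Polynomial k := ∑ μ ∈ G.support.filter (fun μ => μ 0 = μ₀ 0),
      Polynomial.monomial (μ 1) (G.coeff μ) with hq
    have h2 : Polynomial.aeval x q = 0 := by
      rw [hq, map_sum, h1]
      refine Finset.sum_congr rfl fun μ _ => ?_
      rw [Polynomial.aeval_monomial]
    have h3 : q = 0 := by
      by_contra hq0
      exact hx ⟨q, hq0, h2⟩
    have h4 : q.coeff (μ₀ 1) = G.coeff μ₀ := by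
      rw [hq, Polynomial.finsetSum_coeff]
      rw [Finset.sum_eq_single μ₀]
      · rw [Polynomial.coeff_monomial, if_pos rfl]
      · intro μ hμ hne
        rw [Polynomial.coeff_monomial, if_neg]
        intro h5
        apply hne
        have h6 := (Finset.mem_filter.1 hμ).2
        ext i
        fin_cases i
        · exact h6
        · exact h5
      · intro hμ
        exfalso
        apply hμ
        rw [Finset.mem_filter]
        exact ⟨MvPolynomial.mem_support_iff.2 hμ₀, rfl⟩
    rw [h3, Polynomial.coeff_zero] at h4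
    exact hμ₀ h4.symm
  refine ⟨p.leadingCoeff, Polynomial.leadingCoeff_ne_zero.2 hp0, fun v => ?_⟩
  have hM : ∀ i, Q.V v (p.coeff i) ≤ (max (Q.V v x) 1) ^ b := by
    intro i
    rw [hcoeff]
    refine na_sum_le _ (Q.na v) _ _ (by positivity) fun μ hμ => ?_
    have hμ' := (Finset.mem_filter.1 hμ).1
    have hc : G.coeff μ ≠ 0 := MvPolynomial.mem_support_iff.1 hμ'
    rw [map_mul, Q.triv v _ hc, one_mul, map_pow]
    have h5 : μ 1 ≤ b := by
      have h6 := MvPolynomial.le_totalDegree hμ'
      rw [Finsupp.sum_fintype _ _ (by simp), Fin.sum_univ_two] at h6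
      omega
    calc Q.V v x ^ μ 1 ≤ (max (Q.V v x) 1) ^ μ 1 :=
          pow_le_pow_left₀ ((Q.V v).nonneg _) (le_max_left _ _) _
      _ ≤ (max (Q.V v x) 1) ^ b := pow_le_pow_right₀ (le_max_right _ _) h5
  have h7 := root_bound (Q.V v) (Q.na v) p hp0 hM hpe
  have h8 : 0 < Q.V v p.leadingCoeff := (Q.V v).pos (Polynomial.leadingCoeff_ne_zero.2 hp0)
  have h9 := log_le_log (by positivity) h7
  rw [log_mul h8.ne' (by positivity), log_pow] at h9
  unfold lp
  linarith

end Pool.Agent.Q190.FX
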